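import Pool.Agent.helper3.T6R.Spec
import Pool.Agent.helper55.T6.HGC

/-!
Row t6r:RGC of MP_16912e_nt.
-/

set_option autoImplicit false

namespace Pool.Agent.T6R

open Finset NumberField Pool.Agent.helper3.FT Pool.Agent.helper47.RA Pool.Agent.T5 Pool.Agent.T6
open scoped nonZeroDivisors

/-- what is needed of one side -/
lemma RGC_side {K : Type} [Field K] [NumberField K] (Q : QF K) (F : Full Q) (hY : Q.Y F.β ≠ 0) :
    ∃ r e : ℕ, gd Q F.β F.γ = r * e ∧ r ∣ Ideal.absNorm F.a ∧ Squarefree r ∧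
      Nat.Coprime e (r * Ideal.absNorm F.a) ∧
      (∀ p : ℕ, p.Prime → p ∣ r → (p : ℤ) ∣ Q.D ∧ (p : ℤ) ∣ F.Λ) ∧
      (e : ℤ) ∣ Q.Y F.β := by
  have hdv : Nat.gcd (gd Q F.β F.γ) (Ideal.absNorm F.a) ∣ gd Q F.β F.γ := Nat.gcd_dvd_left _ _
  obtain ⟨e, he⟩ := hdv
  obtain ⟨h1, h2, h3⟩ := Pool.Agent.helper26.T5.AllL.aLRD K Q F hY _ e rfl he
  refine ⟨_, e, he, Nat.gcd_dvd_right _ _, h1, h2, fun p hp hpr => ?_, ?_⟩
  · obtain ⟨h4, h5, -⟩ := h3 p hp hpr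
    exact ⟨h4, h5⟩
  · have h4 : ((gd Q F.β F.γ : ℕ) : ℤ) ∣ Q.Y F.β := Int.gcd_dvd_left _ _
    refine dvd_trans ?_ h4
    rw [he]
    exact Int.natCast_dvd_natCast.2 (Dvd.intro_left _ rfl)

/-- the ramified part -/
lemma RGC_ram {K : Type} [Field K] [NumberField K] (Q : QF K) (F F' : Full Q) (ha : F.a = F'.a) (r : ℕ)
    (hr : Squarefree r) (h2 : ¬ 2 ∣ r)
    (hp : ∀ p : ℕ, p.Prime → p ∣ r → (p : ℤ) ∣ Q.D ∧ (p : ℤ) ∣ F.Λ ∧ (p : ℤ) ∣ F'.Λ) :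
    (r : ℤ) * (Ideal.absNorm F.a : ℤ) ^ 2 ∣ Q.Y (Q.cj F.β * F'.β) := by
  have hZZ : F.Z ^ 2 = (Ideal.absNorm F.a : ℤ) ^ 2 := by rw [F.na, sq_abs]
  have hZZ' : F'.Z ^ 2 = F.Z ^ 2 := by rw [hZZ, ha, F'.na, sq_abs]
  -- `cj β * β' = Z² δ`
  have hdv : ((F.Z ^ 2 : ℤ) : 𝓞 K) ∣ Q.cj F.β * F'.β := by
    rw [← Ideal.mem_span_singleton]
    have e1 : Ideal.span {Q.cj F.β * F'.β} = (Q.bar F.a * F.a) ^ 2 * (Q.bar F.L * F'.L) := by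
      rw [← Ideal.span_singleton_mul_span_singleton, ← Q.bar_span, F.iβ, F'.iβ, Q.bar_mul, Q.bar_pow, ← ha]
      ring
    have e2 : (Q.bar F.a * F.a) ^ 2 = Ideal.span {((F.Z ^ 2 : ℤ) : 𝓞 K)} := by
      rw [mul_comm, Q.mul_bar, Ideal.span_singleton_pow, hZZ]
      push_cast
      rfl
    have e3 : Q.cj F.β * F'.β ∈ Ideal.span {Q.cj F.β * F'.β} := Ideal.mem_span_singleton_self _
    rw [e1, e2] at e3
    have e4 : Ideal.span {((F.Z ^ 2 : ℤ) : 𝓞 K)} * (Q.bar F.L * F'.L) ≤ Ideal.span {((F.Z ^ 2 : ℤ) : 𝓞 K)} :=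
      Ideal.mul_le_left
    exact e4 e3
  obtain ⟨δ, hδ⟩ := hdv
  obtain ⟨N, hN, -⟩ := Q.exists_norm δ
  have hZ0 : ((F.Z : ℤ) : 𝓞 K) ≠ 0 := by
    intro h
    exact F.hZ (by exact_mod_cast h)
  have hNΛ : N = F.Λ * F'.Λ := by
    have e1 : (Q.cj F.β * F'.β) * Q.cj (Q.cj F.β * F'.β) = ((F.Z ^ 4 * (F.Λ * F'.Λ) : ℤ) : 𝓞 K) := by
      rw [map_mul, Q.cj_cj]
      have h1 := F.nβ
      have h3 := F'.nβ
      have h4 : ((F'.Z : ℤ) : 𝓞 K) ^ 2 = (F.Z : 𝓞 K) ^ 2 := by exact_mod_cast hZZ'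
      rw [h4] at h3
      push_cast
      calc Q.cj F.β * F'.β * (F.β * Q.cj F'.β) = (F.β * Q.cj F.β) * (F'.β * Q.cj F'.β) := by ring
        _ = _ := by rw [h1, h3]; ring
    have e2 : (Q.cj F.β * F'.β) * Q.cj (Q.cj F.β * F'.β) = ((F.Z ^ 4 * N : ℤ) : 𝓞 K) := by
      rw [hδ, map_mul, map_intCast]
      push_cast
      calc (F.Z : 𝓞 K) ^ 2 * δ * ((F.Z : 𝓞 K) ^ 2 * Q.cj δ) = (F.Z : 𝓞 K) ^ 4 * (δ * Q.cj δ) := by ring
        _ = _ := by rw [hN]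
    have e3 : F.Z ^ 4 * N = F.Z ^ 4 * (F.Λ * F'.Λ) := QF.int_inj (K := K) (by rw [← e2, e1])
    exact mul_left_cancel₀ (pow_ne_zero 4 F.hZ) e3
  obtain ⟨x, hx⟩ := Q.exists_re δ
  set y := Q.Y δ with hy
  have hform : N = x ^ 2 + Q.t * x * y - Q.k * y ^ 2 := by
    have h1 := hN
    rw [hx, Q.norm_form] at h1
    exact (QF.int_inj h1).symm
  have hry : r ∣ y.natAbs := by
    refine HGC_sq hr fun p hpp hpr => ?_
    obtain ⟨hD, hΛ, hΛ'⟩ := hp p hpp hpr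
    have hpi : Prime (p : ℤ) := Nat.prime_iff_prime_int.mp hpp
    have hp2 : p ≠ 2 := by
      rintro rfl
      exact h2 hpr
    have h4N : 4 * N = (2 * x + Q.t * y) ^ 2 - Q.D * y ^ 2 := by
      rw [hform, Q.hk]
      rcases Q.ht with h | h <;> rw [h] <;> ring
    have hpN : (p : ℤ) ^ 2 ∣ N := by
      rw [hNΛ, sq]
      exact mul_dvd_mul hΛ hΛ'
    have h5 : (p : ℤ) ∣ (2 * x + Q.t * y) ^ 2 := by
      have e : (2 * x + Q.t * y) ^ 2 = 4 * N + Q.D * y ^ 2 := by linarith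
      rw [e]
      refine dvd_add ?_ (Dvd.dvd.mul_right hD _)
      exact Dvd.dvd.mul_left ((dvd_pow_self _ two_ne_zero).trans hpN) 4
    have h6 : (p : ℤ) ∣ 2 * x + Q.t * y := hpi.dvd_of_dvd_pow h5
    have h7 : (p : ℤ) ^ 2 ∣ Q.D * y ^ 2 := by
      have e : Q.D * y ^ 2 = (2 * x + Q.t * y) ^ 2 - 4 * N := by linarith
      rw [e]
      exact dvd_sub (pow_dvd_pow_of_dvd h6 2) (Dvd.dvd.mul_left hpN 4)
    rw [← Int.natCast_dvd]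
    by_contra hcon
    have hcop : IsCoprime ((p : ℤ) ^ 2) (y ^ 2) := IsCoprime.pow ((Prime.coprime_iff_not_dvd hpi).mpr hcon)
    have h8 : (p : ℤ) ^ 2 ∣ Q.D := hcop.dvd_of_dvd_mul_right h7
    rcases IsFund.sq_dvd Q.hD h8 with h9 | ⟨-, -, -, h9⟩
    · exact hpi.not_isUnit h9
    · rcases h9 with h9 | h9
      · exact hp2 (by exact_mod_cast h9)
      · have := hpp.pos
        omega
  have hfin : Q.Y (Q.cj F.β * F'.β) = (Ideal.absNorm F.a : ℤ) ^ 2 * y := by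
    rw [hδ, Q.Y_int_mul, hZZ]
  rw [hfin, mul_comm]
  exact mul_dvd_mul_left _ (Int.natCast_dvd.mpr hry)

theorem RGC : RGC_stmt := by
  intro K _ _ Q F F' ha hY1 hY2 m hm hY
  obtain ⟨r, e, hd, hrZ, hr, he, hp, hey⟩ := RGC_side Q F hY1
  obtain ⟨r', e', hd', hrZ', hr', he', hp', hey'⟩ := RGC_side Q F' hY2
  rw [← ha] at hrZ' he'
  set Z : ℕ := Ideal.absNorm F.a with hZ
  have hZ0 : 0 < Z := by
    have h1 := F.na
    have h2 : 0 < |F.Z| := abs_pos.mpr F.hZ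
    rw [← h1] at h2
    exact_mod_cast h2
  rw [hd, hd', HGC_gcd hrZ hrZ' he he']
  set r₀ : ℕ := Nat.gcd r r' with hr₀
  set e₀ : ℕ := Nat.gcd e e' with he₀
  have hr₀r : r₀ ∣ r := Nat.gcd_dvd_left _ _
  have hr₀r' : r₀ ∣ r' := Nat.gcd_dvd_right _ _
  have hsq₀ : Squarefree r₀ := hr.squarefree_of_dvd hr₀r
  have hcop : Nat.Coprime e₀ (r₀ * Z) :=
    (he.coprime_dvd_left (Nat.gcd_dvd_left _ _)).coprime_dvd_right (Nat.mul_dvd_mul hr₀r dvd_rfl)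
  -- natural number form of the value
  have hYn : (Q.Y (Q.cj F.β * F'.β)).natAbs = m.natAbs * Z ^ 2 := by
    have h := congrArg Int.natAbs hY
    rwa [Int.natAbs_abs, Int.natAbs_mul, Int.natAbs_abs, Int.natAbs_pow, Int.natAbs_natCast] at h
  have hm0 : 0 < m.natAbs := Int.natAbs_pos.2 hm
  -- the prime to Z part
  have he₀m : e₀ ∣ m.natAbs := by
    have h1 : (e₀ : ℤ) ∣ Q.Y F.β := (Int.natCast_dvd_natCast.2 (Nat.gcd_dvd_left _ _)).trans hey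
    have h2 : (e₀ : ℤ) ∣ Q.Y F'.β := (Int.natCast_dvd_natCast.2 (Nat.gcd_dvd_right _ _)).trans hey'
    have h3 : (e₀ : ℤ) ∣ Q.Y (Q.cj F.β * F'.β) := Q.h96_Y_mul _ (Q.h96_Y_cj _ h1) h2
    have h4 : e₀ ∣ m.natAbs * Z ^ 2 := by
      rw [← hYn]
      exact Int.natCast_dvd.1 h3
    refine Nat.Coprime.dvd_of_dvd_mul_right ?_ h4
    exact Nat.Coprime.pow_right 2 (hcop.coprime_dvd_right (Dvd.intro_left _ rfl))
  -- the odd part of r₀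
  obtain ⟨r₁, hr₁, hr₁2, hle⟩ : ∃ r₁ : ℕ, r₁ ∣ r₀ ∧ ¬ 2 ∣ r₁ ∧ r₀ ≤ 2 * r₁ := by
    by_cases h2 : 2 ∣ r₀
    · obtain ⟨r₁, h⟩ := h2
      refine ⟨r₁, ⟨2, by rw [h, Nat.mul_comm]⟩, ?_, by omega⟩
      intro h4
      have h5 : 2 * 2 ∣ r₀ := by
        rw [h]
        exact Nat.mul_dvd_mul dvd_rfl h4
      have h6 := hsq₀ 2 h5
      rw [Nat.isUnit_iff] at h6
      omega
    · exact ⟨r₀, dvd_rfl, h2, by omega⟩
  have hsq₁ : Squarefree r₁ := hsq₀.squarefree_of_dvd hr₁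
  have hrm := RGC_ram Q F F' ha r₁ hsq₁ hr₁2 fun p hpp hpr =>
    ⟨(hp p hpp ((hpr.trans hr₁).trans hr₀r)).1, (hp p hpp ((hpr.trans hr₁).trans hr₀r)).2,
      (hp' p hpp ((hpr.trans hr₁).trans hr₀r')).2⟩
  have hr₁m : r₁ ∣ m.natAbs := by
    have h4 : r₁ * Z ^ 2 ∣ m.natAbs * Z ^ 2 := by
      rw [← hYn]
      have h5 : ((r₁ * Z ^ 2 : ℕ) : ℤ) ∣ Q.Y (Q.cj F.β * F'.β) := by
        push_cast
        exact hrm
      exact Int.natCast_dvd.1 h5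
    exact Nat.dvd_of_mul_dvd_mul_right (Nat.pow_pos hZ0) h4
  have hcop₁ : Nat.Coprime r₁ e₀ :=
    ((hcop.coprime_dvd_right (Dvd.intro _ rfl)).coprime_dvd_right hr₁).symm
  have hfin : r₁ * e₀ ∣ m.natAbs := hcop₁.mul_dvd_of_dvd_of_dvd hr₁m he₀m
  have hfl : r₁ * e₀ ≤ m.natAbs := Nat.le_of_dvd hm0 hfin
  have hfl2 : r₀ * e₀ ≤ 2 * m.natAbs := by
    calc r₀ * e₀ ≤ (2 * r₁) * e₀ := Nat.mul_le_mul_right _ hle
      _ = 2 * (r₁ * e₀) := by ring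
      _ ≤ 2 * m.natAbs := Nat.mul_le_mul_left _ hfl
  have h5 : ((r₀ * e₀ : ℕ) : ℤ) ≤ ((2 * m.natAbs : ℕ) : ℤ) := Int.ofNat_le.2 hfl2
  rw [Nat.cast_mul (α := ℤ) 2, Int.natCast_natAbs] at h5
  exact h5

end Pool.Agent.T6R
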